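import Mathlib
import Pool.Agent.Results.MP_ac5cde_gt.TransitiveNotTychonoff

set_option autoImplicit false

namespace Pool.Agent.Results.MP_ac5cde_gt.ProductActions

open Topology TopologicalSpace

universe u w

/-- The `G`-space `X` is not `G`-compactifiable: no equivariant map of `X` to a compact Hausdorff
space with a continuous action of `G` is a topological embedding. -/
def NotCompactifiable (G X : Type u) [Group G] [TopologicalSpace G] [TopologicalSpace X]
    [MulAction G X] : Prop :=
  ∀ (Y : Type w) [TopologicalSpace Y] [CompactSpace Y] [T2Space Y] [MulAction G Y]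
    [ContinuousSMul G Y] (ν : X → Y), (∀ (g : G) (x : X), ν (g • x) = g • ν x) → ¬ IsEmbedding ν

/-- The metrizable topological group `G` acts continuously and with a single orbit on the nonempty
metrizable space `X`, and `X` is not `G`-compactifiable. -/
structure Answers (G X : Type u) [Group G] [TopologicalSpace G] [TopologicalSpace X]
    [MulAction G X] : Prop where
  group : IsTopologicalGroup G
  metrizable_group : MetrizableSpace G
  metrizable : MetrizableSpace X
  nonempty : Nonempty X
  continuous : ContinuousSMul G X
  transitive : ∀ x y : X, ∃ g : G, g • x = y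
  not_compactifiable : NotCompactifiable.{u, w} G X

/-- The componentwise action of `G × H` on `X × Z`. -/
@[reducible]
def prodAction (G X H Z : Type*) [Group G] [Group H] [MulAction G X] [MulAction H Z] :
    MulAction (G × H) (X × Z) where
  smul g x := (g.1 • x.1, g.2 • x.2)
  one_smul x := Prod.ext (one_smul G x.1) (one_smul H x.2)
  mul_smul g h x := Prod.ext (mul_smul g.1 h.1 x.1) (mul_smul g.2 h.2 x.2)

/-- Products with other transitive actions. -/
theorem prod {G X : Type} [Group G] [TopologicalSpace G] [TopologicalSpace X] [MulAction G X]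
    (h : Answers.{0, w} G X) {H Z : Type u} [Group H] [TopologicalSpace H] [IsTopologicalGroup H]
    [MetrizableSpace H] [TopologicalSpace Z] [MetrizableSpace Z] [Nonempty Z] [MulAction H Z]
    [ContinuousSMul H Z] (ht : ∀ x y : Z, ∃ g : H, g • x = y) :
    @Answers.{u, w} (G × H) (X × Z) _ _ _ (prodAction G X H Z) := by
  letI := prodAction G X H Z
  have := h.group
  have := h.metrizable_group
  have := h.metrizable
  have := h.nonempty
  have := h.continuous
  refine ⟨inferInstance, inferInstance, inferInstance, inferInstance, ⟨?_⟩, fun x y => ?_, ?_⟩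
  · have h1 : Continuous fun p : (G × H) × (X × Z) => (p.1.1 • p.2.1, p.1.2 • p.2.2) := by fun_prop
    exact h1
  · obtain ⟨g, hg⟩ := h.transitive x.1 y.1
    obtain ⟨k, hk⟩ := ht x.2 y.2
    exact ⟨(g, k), Prod.ext hg hk⟩
  · intro Y _ _ _ _ _ ν hν hemb
    obtain ⟨z⟩ := ‹Nonempty Z›
    letI : MulAction G Y := MulAction.compHom Y (MonoidHom.inl G H)
    have : ContinuousSMul G Y := ⟨by
      have h1 : Continuous fun p : G × Y => ((p.1, (1 : H)) : G × H) • p.2 := by fun_prop
      exact h1⟩
    refine h.not_compactifiable Y (fun x => ν (x, z)) (fun g x => ?_)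
      (hemb.comp (isEmbedding_prodMkLeft z))
    have h1 := hν (g, 1) (x, z)
    have h2 : ((g, 1) : G × H) • ((x, z) : X × Z) = (g • x, z) := Prod.ext rfl (one_smul H z)
    rw [h2] at h1
    exact h1

/-- There is a Polish group `G` acting continuously and with a single orbit on a nonempty separable
metrizable space `X` such that `X` is not `G`-compactifiable. Moreover, for every metrizable
topological group `H` acting continuously and with a single orbit on a nonempty metrizable space
`Z`, the componentwise action of `G × H` on `X × Z` is continuous and has a single orbit, and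
`X × Z` is not `(G × H)`-compactifiable. -/
theorem result :
    ∃ (G X : Type) (_ : Group G) (_ : TopologicalSpace G) (_ : TopologicalSpace X)
      (_ : MulAction G X),
      PolishSpace G ∧ SecondCountableTopology X ∧ Answers.{0, w} G X ∧
      ∀ (H Z : Type u) [Group H] [TopologicalSpace H] [IsTopologicalGroup H] [MetrizableSpace H]
        [TopologicalSpace Z] [MetrizableSpace Z] [Nonempty Z] [MulAction H Z] [ContinuousSMul H Z],
        (∀ x y : Z, ∃ g : H, g • x = y) →
          @Answers.{u, w} (G × H) (X × Z) _ _ _ (prodAction G X H Z) := by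
  obtain ⟨G, X, _, _, _, _, h1, h2, h3, h4, h5, h6, h7, h8, h9⟩ := TransitiveNotTychonoff.result.{w}
  have h : Answers.{0, w} G X := ⟨h1, h3, h4, h6, h7, h8, h9⟩
  exact ⟨G, X, inferInstance, inferInstance, inferInstance, inferInstance, h2, h5, h,
    fun H Z _ _ _ _ _ _ _ _ _ ht => prod h ht⟩

end Pool.Agent.Results.MP_ac5cde_gt.ProductActions
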